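import Pool.Agent.helper32.QS.Spec

/-! qs:CNE -/

set_option autoImplicit false

namespace QS

open scoped BigOperators commutatorElement

theorem CNE (hHH3 : HH3_stmt) (hPOS : POS_stmt) : CNE_stmt := by
  intro G _ _ p hp hp2 hsol hheis N hN hpN hcent
  obtain ⟨K, E, hK, hpK, hmax, hE, hall⟩ := hHH3 G p hp hp2 hsol hheis
  have hNK : N ≤ K := hmax N hN hpN
  have hle : ∀ F : Subgroup G, EAb p F → F ≤ K ⊔ E := fun F hF x hx => hall x (hF.2 x hx)
  have hchn : Chn p (⊤ : Subgroup G) = Chn p (K ⊔ E) := by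
    ext s
    constructor
    · rintro ⟨h1, h2⟩
      exact ⟨h1, fun F hF => ⟨(h2 F hF).1, (h2 F hF).2.1, hle F (h2 F hF).2.1⟩⟩
    · rintro ⟨h1, h2⟩
      exact ⟨h1, fun F hF => ⟨(h2 F hF).1, (h2 F hF).2.1, le_top⟩⟩
  have hchi : chi p (⊤ : Subgroup G) = chi p (K ⊔ E) := by
    unfold chi
    rw [hchn]
  have hpg : IsPGroup p E := by
    intro x
    refine ⟨1, ?_⟩
    rw [pow_one]
    exact Subtype.ext (hE.2 x.1 x.2)
  have : Fact p.Prime := ⟨hp⟩
  obtain ⟨r, hr⟩ := (IsPGroup.iff_card (p := p) (G := E)).mp hpg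
  have hsolK : Group.IsSolvable K := inferInstance
  have h := (hPOS G p hp K E hsolK hpK hE (fun e _ a ha => hK.conj_mem a ha e) r hr).2
  have h2 : ∀ e ∈ E, (∀ a ∈ K, e * a = a * e) → e = 1 := by
    intro e he hcom
    have heN : e ∈ N := hcent e (fun y hy => hcom y (hNK hy))
    have hep : e ^ p = 1 := hE.2 e he
    by_contra hne
    have ho : orderOf e = p := orderOf_eq_prime hep hne
    apply hpN
    have h3 : orderOf (⟨e, heN⟩ : N) ∣ Nat.card N := orderOf_dvd_natCard _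
    rw [Subgroup.orderOf_mk, ho] at h3
    exact h3
  have h3 := h h2
  rw [hchi]
  intro h0
  rw [h0, mul_zero] at h3
  exact lt_irrefl _ h3

end QS
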